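import Mathlib
import Pool.Agent.TH419.FS.Unif
import Pool.Agent.TH419.FS.Alg
import Pool.Agent.TH419.FS.Diag

/-!
# Words in the multiples `c ^ i ξ` of the real algebraic irrational numbers

For every `c ≥ 2` there is one set `S` of exponents of density one such that for all real algebraic
irrational numbers `ξ` and all bases `b` which are multiplicatively independent of `c`, every word
occurs in all the long intervals of places of the base `b` expansion of `c ^ i ξ`, for large `i ∈ S`.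
-/

set_option autoImplicit false

open Filter Topology

namespace Pool.Agent.Results.MP_5b6025_nt.MostMultiples

/-- Every word of `k` digits in base `b` (the word with value `W` consists of the `k` digits of
`W < b ^ k`, with leading zeros) occurs in the expansion of `y` right after the `j`-th digit behind
the point, for some integer `j` with `A ≤ j ≤ B`. -/
def WordsBetween (b k : ℕ) (y A B : ℝ) : Prop :=
  ∀ W : ℕ, W < b ^ k → ∃ j : ℕ, A ≤ j ∧ (j : ℝ) ≤ B ∧
    ⌊(b : ℝ) ^ (j + k) * y⌋ % ((b : ℤ) ^ k) = (W : ℤ)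

/-- For every integer `c ≥ 2` there is a set `S` of natural numbers of density one such that for
every real algebraic irrational number `ξ`, every base `b ≥ 2` which is multiplicatively independent
of `c`, all `k` and `R`, every `ε > 0` and every large enough `i ∈ S`: every word of `k` digits occurs
in the base `b` expansion of `c ^ i ξ` between the places `N` and `N + ε i`, for every `N ≤ R i`. -/
theorem result (c : ℕ) (hc : 2 ≤ c) :
    ∃ S : Set ℕ, Tendsto (fun n : ℕ => ((S ∩ Set.Iio n).ncard : ℝ) / n) atTop (𝓝 1) ∧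
      ∀ ξ : ℝ, IsAlgebraic ℚ ξ → Irrational ξ →
      ∀ b : ℕ, 2 ≤ b → Irrational (Real.log b / Real.log c) →
      ∀ k R : ℕ, ∀ ε : ℝ, 0 < ε → ∃ i₀ : ℕ, ∀ i ∈ S, i₀ ≤ i → ∀ N : ℕ, N ≤ R * i →
        WordsBetween b k ((c : ℝ) ^ i * ξ) N (N + ε * i) := by
  classical
  -- the countable index set
  let A : Type := {ξ : ℝ // IsAlgebraic ℚ ξ ∧ Irrational ξ}
  have hA : Countable A := by
    have h1 : {ξ : ℝ | IsAlgebraic ℚ ξ}.Countable := Algebraic.countable ℚ ℝ
    have h2 : {ξ : ℝ | IsAlgebraic ℚ ξ ∧ Irrational ξ}.Countable := h1.mono fun ξ h => h.1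
    exact h2.to_subtype
  let Bs : Type := {b : ℕ // 2 ≤ b ∧ Irrational (Real.log b / Real.log c)}
  let ι : Type := (A × Bs) × (ℕ × ℕ × ℕ)
  let B : ι → Set ℕ := fun t => {i : ℕ | ¬ ∀ N : ℕ, N ≤ t.2.2.1 * i →
    WordsBetween t.1.2.1 t.2.1 ((c : ℝ) ^ i * t.1.1.1) N (N + 1 / ((t.2.2.2 : ℝ) + 1) * i)}
  have hB : ∀ t, Pool.Agent.TH419.FS.DZ (B t) := by
    rintro ⟨⟨⟨ξ, halg, hirr⟩, ⟨b, hb, hbc⟩⟩, ⟨k, R, n⟩⟩ δ hδ
    have h := Pool.Agent.H705R2.mulIndep_of_irrational hb hc hbc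
    have hpR : (1 : ℝ) < b := by exact_mod_cast (by omega : 1 < b)
    have hqR : (1 : ℝ) < c := by exact_mod_cast (by omega : 1 < c)
    set ell : ℝ := Real.log c / Real.log b with hell
    have hell0 : 0 < ell := div_pos (Real.log_pos hqR) (Real.log_pos hpR)
    set C : ℝ := 1 / ((n : ℝ) + 1) / (R + ell + 1) with hC
    have hC0 : 0 < C := by positivity
    obtain ⟨κ, hκ, hm⟩ := Pool.Agent.TH419.FS.alg_units b c hb hc ξ halg hirr (C / 2) (by linarith)
    obtain ⟨M₀, hM₀⟩ := Pool.Agent.TH419.FS.unif hb hc h hδ (by linarith : (0 : ℝ) ≤ C / 2) hκ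
      (by linarith : C / 2 < C) k R
    refine ⟨M₀, fun m hm0 => ?_⟩
    refine le_trans ?_ (hM₀ ξ hm 0 m hm0)
    unfold Pool.Agent.TH419.FS.cnt
    rw [← Set.ncard_coe_finset]
    refine Nat.cast_le.2 (Set.ncard_le_ncard ?_ (Finset.finite_toSet _))
    rintro i ⟨hi, him⟩
    rw [Finset.mem_coe, Finset.mem_filter, Finset.mem_range]
    refine ⟨him, fun hall => hi fun N hN => ?_⟩
    have h1 := hall N (by simpa using hN)
    intro W hW
    obtain ⟨j, hj1, hj2, hj3⟩ := h1 W hW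
    refine ⟨j, hj1, hj2.trans ?_, by simpa using hj3⟩
    have hNR : (N : ℝ) ≤ R * i := by exact_mod_cast hN
    have hi0 : (0 : ℝ) ≤ i := Nat.cast_nonneg _
    have hR0 : (0 : ℝ) ≤ R := Nat.cast_nonneg _
    have h2 : C * (N + (((0 : ℕ) : ℝ) + i) * ell) ≤ C * ((R + ell + 1) * i) := by
      refine mul_le_mul_of_nonneg_left ?_ hC0.le
      push_cast
      nlinarith
    have h3 : C * ((R + ell + 1) * i) = 1 / ((n : ℝ) + 1) * i := by
      rw [hC]; field_simp
    rw [h3] at h2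
    exact add_le_add le_rfl h2
  obtain ⟨S, hS1, hS2⟩ := Pool.Agent.TH419.FS.diag B hB
  refine ⟨S, hS1, fun ξ halg hirr b hb hbc k R ε hε => ?_⟩
  obtain ⟨n, hn⟩ := exists_nat_one_div_lt hε
  obtain ⟨x0, hx0⟩ := hS2 (((⟨ξ, halg, hirr⟩, ⟨b, hb, hbc⟩), (k, R, n)) : ι)
  refine ⟨x0, fun i hiS hi N hN => ?_⟩
  have h1 := hx0 i hiS hi
  have h2 : ∀ N : ℕ, N ≤ R * i →
      WordsBetween b k ((c : ℝ) ^ i * ξ) N (N + 1 / ((n : ℝ) + 1) * i) := by
    by_contra hcon
    exact h1 hcon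
  intro W hW
  obtain ⟨j, hj1, hj2, hj3⟩ := h2 N hN W hW
  refine ⟨j, hj1, hj2.trans ?_, hj3⟩
  have : 1 / ((n : ℝ) + 1) * i ≤ ε * i := mul_le_mul_of_nonneg_right hn.le (Nat.cast_nonneg _)
  linarith

end Pool.Agent.Results.MP_5b6025_nt.MostMultiples
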