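import Pool.Agent.TH869.LPD.All

/-!
# Digits of polynomial multiples of algebraic irrational numbers, in many bases at once

Let `α` be a real algebraic irrational number. All but few of the numbers `f(l) α + h(l)`, `l < N`,
contain, in every base `b ≤ B`, every block of `k` digits infinitely often; and there are explicitly
located places at which their digits in a given base are equidistributed with a power saving.
-/

set_option autoImplicit false

namespace Pool.Agent.Results.MP_5b6025_nt.PolynomialMultiples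

open Polynomial Pool.Agent.W226.MP Pool.Agent.TH869.LPD Finset

/-- Liouville's inequality -/
lemma alg_measure (α : ℝ) (hα : Irrational α) (D : ℕ) (hD : 2 ≤ D) (g : ℤ[X]) (hg0 : g ≠ 0)
    (hg : g.natDegree = D) (hgα : aeval α g = 0) :
    ∃ c0 : ℝ, 0 < c0 ∧ ∀ q : ℕ, 1 ≤ q → ∀ p : ℤ,
      c0 ≤ (q : ℝ) ^ ((D : ℝ) - 1) * |q * α - p| := by
  obtain ⟨A, hA, h⟩ := Liouville.exists_pos_real_of_irrational_root hα hg0 (by
    rw [Polynomial.eval_map]
    rwa [Polynomial.aeval_def] at hgα)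
  refine ⟨1 / A, by positivity, ?_⟩
  intro q hq p
  have h1 := h p (q - 1)
  have hq0 : (0:ℝ) < q := by exact_mod_cast hq
  have e1 : (((q - 1 : ℕ) : ℝ) + 1) = q := by
    rw [Nat.cast_sub hq]; push_cast; ring
  rw [e1, hg] at h1
  rw [div_le_iff₀ hA]
  have e2 : (q : ℝ) ^ D = (q : ℝ) ^ ((D : ℝ) - 1) * q := by
    have : (q : ℝ) ^ ((D : ℝ) - 1) * q = (q : ℝ) ^ ((D : ℝ) - 1 + 1) := by
      rw [Real.rpow_add hq0, Real.rpow_one]
    rw [this, sub_add_cancel, Real.rpow_natCast]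
  have e3 : |(q:ℝ) * α - p| = q * |α - p / q| := by
    rw [← abs_of_pos hq0, ← abs_mul, abs_of_pos hq0]
    congr 1
    field_simp
  rw [e2] at h1
  rw [e3]
  linarith

/-- For every `d` there are `c, C > 0` such that the following holds for every real algebraic
irrational number `α`, all `f ∈ ℤ[X]` with `1 ≤ deg f ≤ d`, all `h ∈ ℝ[X]` with `deg h < deg f` and
all `N ≥ 1`, where `y l = f(l) α + h(l)`.
(1) For all `B ≥ 2` and `k ≥ 1`, all but at most `C B ^ (k + 1) N (B / N) ^ (c / (2 k B ^ k log B))` of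
the `l < N` are such that in every base `2 ≤ b ≤ B` every block of `k` digits occurs infinitely often
in the expansion of `y l`.
(2) Let `D` be the degree of a nonzero integer polynomial with root `α`. There is a constant `C'`
depending only on `α` and `D` such that for every base `b ≥ 2` and every place `S` there is a place
`S ≤ s ≤ D S + (D - 1) log_b (N |a|) + C'`, `a` the leading coefficient of `f`, such that the number
of `l < N` with `u ≤ {b ^ s y l} < v` is `(v - u) N` up to an error of `C N (b / N) ^ c`, for all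
`0 ≤ u ≤ v ≤ 1`. -/
theorem result (d : ℕ) : ∃ c C : ℝ, 0 < c ∧ 0 < C ∧ ∀ α : ℝ, Irrational α → IsAlgebraic ℚ α →
    (∀ f : ℤ[X], 1 ≤ f.natDegree → f.natDegree ≤ d →
      ∀ h : ℝ[X], h.natDegree < f.natDegree → ∀ N : ℕ, 1 ≤ N → ∀ B k : ℕ, 2 ≤ B → 1 ≤ k →
      ({l : ℕ | l < N ∧ ∃ b : ℕ, 2 ≤ b ∧ b ≤ B ∧ ∃ w : Fin k → Fin b,
        {p : ℕ | OccursAt b k w (seqv f h α l) p}.Finite}.ncard : ℝ)
        ≤ C * (B : ℝ) ^ (k + 1) * N * ((B : ℝ) / N) ^ (c / (2 * k * (B : ℝ) ^ k * Real.log B))) ∧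
    (∀ (D : ℕ) (g : ℤ[X]), g ≠ 0 → g.natDegree = D → aeval α g = 0 → ∃ C' : ℝ,
      ∀ f : ℤ[X], 1 ≤ f.natDegree → f.natDegree ≤ d →
      ∀ h : ℝ[X], h.natDegree < f.natDegree → ∀ N : ℕ, 1 ≤ N → ∀ b : ℕ, 2 ≤ b →
      ∀ S : ℕ, ∃ s : ℕ, S ≤ s ∧
        (s : ℝ) ≤ D * S + (D - 1) * (Real.log (N * |(f.leadingCoeff : ℝ)|) / Real.log b) + C' ∧
        ∀ u v : ℝ, 0 ≤ u → u ≤ v → v ≤ 1 →
        |({l : ℕ | l < N ∧ u ≤ Int.fract ((b : ℝ) ^ s * seqv f h α l) ∧
            Int.fract ((b : ℝ) ^ s * seqv f h α l) < v}.ncard : ℝ) - (v - u) * N|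
          ≤ C * N * ((b : ℝ) / N) ^ c) := by
  classical
  obtain ⟨c, hc, hc1, K, hK, hmain⟩ := poly_words d
  refine ⟨c, K, hc, by linarith, ?_⟩
  intro α hα halg
  have hdeg : ∀ (D : ℕ) (g : ℤ[X]), g ≠ 0 → g.natDegree = D → aeval α g = 0 → 2 ≤ D := by
    intro D g hg0 hgD hgα
    by_contra hlt
    have hD : D = 0 ∨ D = 1 := by omega
    have h1 : g = C (g.coeff 1) * X + C (g.coeff 0) := eq_X_add_C_of_natDegree_le_one (by omega)
    have h2 : (g.coeff 1 : ℝ) * α + g.coeff 0 = 0 := by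
      rw [h1] at hgα
      simpa using hgα
    by_cases h3 : g.coeff 1 = 0
    · rw [h3] at h2
      apply hg0
      have h4 : (g.coeff 0 : ℝ) = 0 := by simpa using h2
      have h5 : g.coeff 0 = 0 := by exact_mod_cast h4
      rw [h1, h3, h5]; simp
    · apply hα
      refine ⟨-(g.coeff 0 : ℚ) / g.coeff 1, ?_⟩
      push_cast
      have h4 : (g.coeff 1 : ℝ) ≠ 0 := by exact_mod_cast h3
      rw [div_eq_iff h4]
      linarith
  refine ⟨?_, ?_⟩
  · -- a polynomial with root `α`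
    obtain ⟨g, hg0, hgα⟩ : ∃ g : ℤ[X], g ≠ 0 ∧ aeval α g = 0 := by
      exact (IsFractionRing.isAlgebraic_iff ℤ ℚ ℝ).2 halg
    intro f hf1 hf2 h hh N hN B k hB hk
    have hD2 := hdeg _ g hg0 rfl hgα
    obtain ⟨c0, hc0, hm⟩ := alg_measure α hα g.natDegree hD2 g hg0 rfl hgα
    have hκ : (0:ℝ) < (g.natDegree : ℝ) - 1 := by
      have : (2:ℝ) ≤ g.natDegree := by exact_mod_cast hD2
      linarith
    have hNr : (1:ℝ) ≤ N := by exact_mod_cast hN
    have hBr : (2:ℝ) ≤ B := by exact_mod_cast hB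
    have hkr : (1:ℝ) ≤ k := by exact_mod_cast hk
    have hlB : 0 < Real.log B := Real.log_pos (by linarith)
    set E : ℝ := c / (2 * k * (B:ℝ)^k * Real.log B) with hE
    have hE0 : 0 < E := by positivity
    have hBk : (1:ℝ) ≤ (B:ℝ)^(k+1) := one_le_pow₀ (by linarith)
    set T : Finset ℕ := (range N).filter (fun l : ℕ => ∃ b : ℕ, 2 ≤ b ∧ b ≤ B ∧
      ∃ w : Fin k → Fin b, {p : ℕ | OccursAt b k w (seqv f h α l) p}.Finite) with hT
    have e1 : {l : ℕ | l < N ∧ ∃ b : ℕ, 2 ≤ b ∧ b ≤ B ∧ ∃ w : Fin k → Fin b,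
        {p : ℕ | OccursAt b k w (seqv f h α l) p}.Finite} = ((T : Finset ℕ) : Set ℕ) := by
      ext l; simp [hT]
    rw [e1, Set.ncard_coe_finset]
    rcases lt_or_ge (N:ℝ) B with hNB | hNB
    · have h1 : (T.card : ℝ) ≤ N := by
        have : T.card ≤ (range N).card := card_le_card (filter_subset _ _)
        rw [card_range] at this
        exact_mod_cast this
      have h2 : 1 ≤ ((B:ℝ)/N)^E := by
        apply Real.one_le_rpow _ hE0.le
        rw [le_div_iff₀ (by linarith)]; linarith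
      calc (T.card : ℝ) ≤ 1 * 1 * N * 1 := by linarith
        _ ≤ K * (B:ℝ)^(k+1) * N * ((B:ℝ)/N)^E := by gcongr
    · let Tb : ℕ → Finset ℕ := fun b => (range N).filter (fun l : ℕ =>
        ∃ w : Fin k → Fin b, {p : ℕ | OccursAt b k w (seqv f h α l) p}.Finite)
      have hTb : ∀ b ∈ Icc 2 B, ((Tb b).card : ℝ) ≤ K * (B:ℝ)^k * N * ((B:ℝ)/N)^E := by
        intro b hb
        rw [mem_Icc] at hb
        obtain ⟨_, h2⟩ := hmain α ((g.natDegree : ℝ) - 1) c0 hκ hc0 hm b hb.1 f hf1 hf2 h hh N hN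
        have h3 := h2 k hk
        have e2 : {l : ℕ | l < N ∧ ∃ w : Fin k → Fin b,
            {p : ℕ | OccursAt b k w (seqv f h α l) p}.Finite} = ((Tb b : Finset ℕ) : Set ℕ) := by
          ext l; simp [Tb]
        rw [e2, Set.ncard_coe_finset] at h3
        refine h3.trans ?_
        have hbr : (2:ℝ) ≤ b := by exact_mod_cast hb.1
        have hbB : (b:ℝ) ≤ B := by exact_mod_cast hb.2
        have hlb : 0 < Real.log b := Real.log_pos (by linarith)
        have hlbB : Real.log b ≤ Real.log B := Real.log_le_log (by linarith) hbB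
        have h4 : ((b:ℝ)/N)^(c / (2 * k * (b:ℝ)^k * Real.log b)) ≤ ((B:ℝ)/N)^E := by
          calc ((b:ℝ)/N)^(c / (2 * k * (b:ℝ)^k * Real.log b)) ≤ ((b:ℝ)/N)^E := by
                apply Real.rpow_le_rpow_of_exponent_ge (by positivity)
                · rw [div_le_one (by linarith)]; linarith
                · rw [hE]
                  apply div_le_div_of_nonneg_left hc.le (by positivity)
                  gcongr
            _ ≤ ((B:ℝ)/N)^E := by
                apply Real.rpow_le_rpow (by positivity) _ hE0.le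
                gcongr
        gcongr
      have hsub : T ⊆ (Icc 2 B).biUnion Tb := by
        intro l hl
        rw [hT, mem_filter] at hl
        obtain ⟨hl1, b, hb1, hb2, hw⟩ := hl
        rw [mem_biUnion]
        exact ⟨b, mem_Icc.2 ⟨hb1, hb2⟩, mem_filter.2 ⟨hl1, hw⟩⟩
      have h5 : T.card ≤ ∑ b ∈ Icc 2 B, (Tb b).card := (card_le_card hsub).trans card_biUnion_le
      have h6 : (T.card : ℝ) ≤ ∑ b ∈ Icc 2 B, ((Tb b).card : ℝ) := by exact_mod_cast h5
      refine h6.trans ((sum_le_sum hTb).trans ?_)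
      rw [sum_const, nsmul_eq_mul, Nat.card_Icc]
      have h7 : ((B + 1 - 2 : ℕ) : ℝ) ≤ B := by
        have : B + 1 - 2 ≤ B := by omega
        exact_mod_cast this
      calc ((B + 1 - 2 : ℕ) : ℝ) * (K * (B:ℝ)^k * N * ((B:ℝ)/N)^E)
          ≤ B * (K * (B:ℝ)^k * N * ((B:ℝ)/N)^E) := by gcongr
        _ = _ := by rw [pow_succ]; ring
  · intro D g hg0 hgD hgα
    have hD2 := hdeg D g hg0 hgD hgα
    obtain ⟨c0, hc0, hm⟩ := alg_measure α hα D hD2 g hg0 hgD hgα
    have hκ : (0:ℝ) < (D : ℝ) - 1 := by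
      have : (2:ℝ) ≤ D := by exact_mod_cast hD2
      linarith
    refine ⟨|Real.log c0| / Real.log 2 + 1, ?_⟩
    intro f hf1 hf2 h hh N hN b hb S
    obtain ⟨h1, _⟩ := hmain α ((D : ℝ) - 1) c0 hκ hc0 hm b hb f hf1 hf2 h hh N hN
    obtain ⟨s, a1, a2, a3, _⟩ := h1 S
    refine ⟨s, a1, ?_, a3⟩
    have e1 : (1:ℝ) + ((D:ℝ) - 1) = D := by ring
    rw [e1] at a2
    exact a2

end Pool.Agent.Results.MP_5b6025_nt.PolynomialMultiples
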