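import Mathlib
import Pool.Agent.TH461.FGK.Alg

/-!
# The number of occurrences of words in the multiples `q ^ n ξ` of algebraic irrational numbers

For `b, q` coprime (or products of powers of two coprime numbers, such as `b = 10`, `q = 2`), every
word of base `b` digits occurs in the expansions of the `M` numbers `q ^ n ξ`, `n₀ ≤ n < n₀ + M`, at
more than `M ^ (2 - ε)` of the `M ^ 2` places `i₀ ≤ i < i₀ + M`, for all `n₀, i₀ ≤ R M`.
-/

set_option autoImplicit false

open Filter Topology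

namespace Pool.Agent.Results.MP_5b6025_nt.WordCountsInWindows

/-- Let `b, q ≥ 2` be multiplicatively independent.  There is `1 < s₀ ≤ 2`, with `s₀ = 2` if `b` and
`q` are products of powers of two coprime numbers (for instance `b, q` coprime, or `b = 10` and
`q = 2`), such that for every real algebraic irrational `ξ`, every word of `k` base `b` digits (the
word with value `W` consists of the `k` digits of `W < b ^ k`, with leading zeros), every `s < s₀`
and every `R`, for all large `M` and all `n₀, i₀ ≤ R M`: the word occurs in the base `b` expansion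
of `q ^ n ξ` right after the `i`-th digit behind the point for at least `M ^ s` of the `M ^ 2` pairs
`n₀ ≤ n < n₀ + M`, `i₀ ≤ i < i₀ + M`. -/
theorem result (b q : ℕ) (hb : 2 ≤ b) (hq : 2 ≤ q)
    (hbq : Irrational (Real.log (b : ℝ) / Real.log (q : ℝ))) :
    ∃ s₀ : ℝ, 1 < s₀ ∧ s₀ ≤ 2 ∧
      ((∃ u v k l c d : ℕ, 2 ≤ u ∧ 2 ≤ v ∧ Nat.Coprime u v ∧ b = u ^ k * v ^ l ∧
        q = u ^ c * v ^ d ∧ k * d ≠ l * c) → s₀ = 2) ∧
      ∀ ξ : ℝ, Irrational ξ → IsAlgebraic ℚ ξ → ∀ k W : ℕ, W < b ^ k → ∀ s : ℝ, s < s₀ →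
        ∀ R : ℕ, ∀ᶠ M : ℕ in atTop, ∀ n₀ i₀ : ℕ, n₀ ≤ R * M → i₀ ≤ R * M →
          (M : ℝ) ^ s ≤
            (((Finset.Ico n₀ (n₀ + M) ×ˢ Finset.Ico i₀ (i₀ + M)).filter (fun u : ℕ × ℕ =>
              ⌊(b : ℝ) ^ (u.2 + k) * ((q : ℝ) ^ u.1 * ξ)⌋ % ((b : ℤ) ^ k) = (W : ℤ))).card : ℝ) := by
  obtain ⟨κ₀, h0, h1, h2, hGr⟩ := Pool.Agent.TH461.FGK.gr2_all hb hq hbq
  refine ⟨2 - κ₀, by linarith, by linarith, fun h => by rw [h2 h]; norm_num, ?_⟩
  intro ξ hξ halg k W hW s hs R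
  obtain ⟨s1, e1, e2⟩ := exists_between hs
  have hG : Pool.Agent.H847R3.XpXq.Gr2 b q s1 := by
    have := hGr (2 - s1) (by linarith)
    rwa [sub_sub_cancel] at this
  have h3 := Pool.Agent.TH461.FGK.alg_words hb hq hbq e1 hG hξ halg k W hW (R := R)
    (Nat.cast_nonneg R)
  filter_upwards [h3] with M hM n₀ i₀ hn hi
  exact hM n₀ i₀ (by exact_mod_cast hn) (by exact_mod_cast hi)

end Pool.Agent.Results.MP_5b6025_nt.WordCountsInWindows
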