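import Mathlib
import Pool.Agent.TH461.AL.Fin

/-!
# Words in all windows of almost all multiples `q ^ n ξ` of an algebraic irrational number

For `b, q ≥ 2` coprime and `ξ` algebraic and irrational: for all but `δ M` of any `M` consecutive
exponents `n`, every word of `k` digits occurs at least `M ^ (1 - ε)` times in every long window of
the base `b` digits of `q ^ n ξ`.
-/

set_option autoImplicit false

open Filter Topology

namespace Pool.Agent.Results.MP_5b6025_nt.WordsInAllWindows

open Classical in
/-- Let `b, q ≥ 2` be coprime, `ξ` a real algebraic irrational number, and `k`, `R`, `ε, δ, η > 0`.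
There is `M0` such that for all `M ≥ M0` and all `J`, for all but at most `δ M` of the exponents
`n = J + t`, `t < M`: for every window `u + 1, …, u + l` of places behind the point, with
`u + l ≤ R (J + M)` and `l ≥ η (J + M)`, and for every word of `k` base `b` digits (the word with
value `W < b ^ k`, with leading zeros), this word occurs in the window of the base `b` expansion of
`q ^ n ξ` (modulo `1`) at least `M ^ (1 - ε)` times: right after the `i`-th digit behind the point,
`u ≤ i ≤ u + l - k`. -/
theorem result (b q : ℕ) (hb : 2 ≤ b) (hq : 2 ≤ q) (hco : Nat.Coprime b q) (ξ : ℝ)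
    (hξ : Irrational ξ) (halg : IsAlgebraic ℚ ξ) (k R : ℕ) (ε δ η : ℝ) (hε : 0 < ε) (hδ : 0 < δ)
    (hη : 0 < η) :
    ∃ M0 : ℕ, ∀ M : ℕ, M0 ≤ M → ∀ J : ℕ,
      (((Finset.range M).filter (fun t : ℕ => ¬ ∀ u l : ℕ, u + l ≤ R * (J + M) →
        η * ((J : ℝ) + M) ≤ l → ∀ W < b ^ k, (M : ℝ) ^ (1 - ε) ≤
          (((Finset.range (u + l)).filter (fun i : ℕ => u ≤ i ∧ i + k ≤ u + l ∧
            ⌊(b : ℝ) ^ (i + k) * ((q : ℝ) ^ (J + t) * ξ)⌋ % ((b : ℤ) ^ k) = (W : ℤ))).card :
              ℝ))).card : ℝ) ≤ δ * M :=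
  Pool.Agent.TH461.AL.Fin.alg_windows hb hq hco hξ halg k R hε hδ hη

end Pool.Agent.Results.MP_5b6025_nt.WordsInAllWindows
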